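import Mathlib

set_option autoImplicit false
open Filter Topology

namespace Pool.Agent.H.MP_97b573_an

def κ : ℕ → ℤ → ℤ
  | 0, a => if 0 ≤ a then 1 else 0
  | h + 1, a => 2 * κ h a - κ h (a + 1)

theorem κ_one (h : ℕ) : ∀ a : ℤ, 0 ≤ a → κ h a = 1 := by
  induction h with
  | zero => intro a ha; simp [κ, ha]
  | succ h ih => intro a ha; rw [κ, ih a ha, ih (a + 1) (by omega)]; rfl

theorem κ_zero (h : ℕ) : ∀ a : ℤ, a + h < 0 → κ h a = 0 := by
  induction h with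
  | zero => intro a ha; simp only [κ]; rw [if_neg (by omega)]
  | succ h ih =>
    intro a ha
    rw [κ, ih a (by push_cast at ha; omega), ih (a + 1) (by push_cast at ha; omega)]; rfl

theorem κ_le (h : ℕ) : ∀ a : ℤ, |κ h a| ≤ 3 ^ h := by
  induction h with
  | zero => intro a; simp only [κ]; split_ifs <;> simp
  | succ h ih =>
    intro a
    have h1 := abs_le.1 (ih a)
    have h2 := abs_le.1 (ih (a + 1))
    rw [κ, pow_succ, abs_le]
    constructor <;> omega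

def pr (e : ℤ) (H : ℕ → ℤ) : ℕ → ℤ
  | 0 => e
  | k + 1 => H k

theorem last_neg (x : ℕ → ℤ) (M : ℕ) (hM : ∀ k, M ≤ k → x k = 0) (i : ℕ) (hi : x i < 0) :
    ∃ k, i ≤ k ∧ k < M ∧ x k < 0 ∧ 0 ≤ x (k + 1) := by
  by_contra hc
  push Not at hc
  have : ∀ j, x (i + j) < 0 := by
    intro j
    induction j with
    | zero => exact hi
    | succ j ih =>
      refine hc (i + j) (by omega) ?_ ih
      by_contra h
      rw [hM _ (by omega)] at ih
      omega
  have h := this M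
  rw [hM _ (by omega)] at h
  omega

theorem fp (x : ℕ → ℤ) (N : ℕ) (h : ∀ k, N ≤ k → x k = 1) :
    ∏ᶠ k, x k = ∏ k ∈ Finset.range N, x k := by
  refine finprod_eq_prod_of_mulSupport_subset _ fun k hk => ?_
  simp only [Finset.coe_range, Set.mem_Iio]
  by_contra h1
  exact hk (h k (by omega))

theorem ex_bound (H : ℕ →₀ ℤ) : ∃ M, ∀ k, M ≤ k → H k = 0 := by
  obtain ⟨M, hM⟩ := H.support.bddAbove
  refine ⟨M + 1, fun k hk => ?_⟩
  by_contra h
  have := hM (Finset.mem_coe.2 (Finsupp.mem_support_iff.2 h))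
  omega

noncomputable def Φ (H : ℕ →₀ ℤ) : ℤ := ∏ᶠ k, κ (H k).toNat (pr 0 H k - H k)

theorem pr_zero (e : ℤ) (H : ℕ → ℤ) (M : ℕ) (hM : ∀ k, M ≤ k → H k = 0) (k : ℕ)
    (hk : M + 1 ≤ k) : pr e H k = 0 := by
  obtain ⟨j, rfl⟩ : ∃ j, k = j + 1 := ⟨k - 1, by omega⟩
  exact hM j (by omega)

theorem Φ_eq (H : ℕ →₀ ℤ) (M N : ℕ) (hM : ∀ k, M ≤ k → H k = 0) (hN : M + 1 ≤ N) :
    Φ H = ∏ k ∈ Finset.range N, κ (H k).toNat (pr 0 H k - H k) := by
  refine fp _ _ fun k hk => ?_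
  rw [pr_zero 0 H M hM k (by omega), hM k (by omega)]
  rfl

theorem Φ_zero : Φ 0 = 1 := by
  rw [Φ_eq 0 0 1 (fun _ _ => rfl) le_rfl]
  simp [pr, κ]

theorem Φ_nonneg (H : ℕ →₀ ℤ) (h : Φ H ≠ 0) (i : ℕ) : 0 ≤ H i := by
  obtain ⟨M, hM⟩ := ex_bound H
  by_contra hi
  obtain ⟨k, -, h2, h3, h4⟩ := last_neg H M hM i (by omega)
  apply h
  rw [Φ_eq H M (M + 1) hM le_rfl]
  refine Finset.prod_eq_zero (i := k + 1) (by simp; omega) (κ_zero _ _ ?_)
  rw [Int.toNat_of_nonneg h4]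
  simp only [pr]; omega

noncomputable def u (l : ℕ) : ℕ →₀ ℤ := ∑ k ∈ Finset.range l, Finsupp.single k 1

theorem u_apply (l k : ℕ) : u l k = if k < l then 1 else 0 := by
  simp [u, Finsupp.finsetSum_apply, Finsupp.single_apply]

theorem pr_u (H : ℕ →₀ ℤ) (l k : ℕ) :
    pr 0 (⇑(H + u l)) k - (H + u l) k = pr (-1) H k - H k + if k = l then 1 else 0 := by
  cases k with
  | zero =>
    simp only [pr, Finsupp.add_apply, u_apply]
    split_ifs <;> omega
  | succ k =>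
    simp only [pr, Finsupp.add_apply, u_apply]
    split_ifs <;> omega

noncomputable def Q (H : ℕ →₀ ℤ) (j : ℕ) : ℤ :=
  ∏ᶠ k, κ (H k + if k < j then 1 else 0).toNat (pr (-1) H k - H k)

theorem Q_eq (H : ℕ →₀ ℤ) (M j N : ℕ) (hM : ∀ k, M ≤ k → H k = 0) (hN : M + 1 ≤ N)
    (hj : j ≤ N) : Q H j =
      ∏ k ∈ Finset.range N, κ (H k + if k < j then 1 else 0).toNat (pr (-1) H k - H k) := by
  refine fp _ _ fun k hk => ?_
  rw [pr_zero _ H M hM k (by omega), hM k (by omega), if_neg (by omega)]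
  rfl

theorem Q_zero (H : ℕ →₀ ℤ) : Q H 0 = 0 := by
  obtain ⟨M, hM⟩ := ex_bound H
  obtain ⟨k, -, h2, h3, h4⟩ := last_neg (pr (-1) H) (M + 1) (pr_zero _ H M hM) 0 (by simp [pr])
  rw [Q_eq H M 0 (M + 1) hM le_rfl (by omega)]
  refine Finset.prod_eq_zero (i := k) (by simpa using h2) (κ_zero _ _ ?_)
  have h5 : 0 ≤ H k := h4
  simp only [Nat.not_lt_zero, if_false, add_zero]
  rw [Int.toNat_of_nonneg h5]
  omega

theorem three (H : ℕ →₀ ℤ) (i : ℕ) : ∃ E : ℤ, (H i < 0 → E = 0) ∧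
    Φ (H + u i) = κ (H i).toNat (pr (-1) H i - H i + 1) * E ∧
    Q H (i + 1) = κ (H i + 1).toNat (pr (-1) H i - H i) * E ∧
    Q H i = κ (H i).toNat (pr (-1) H i - H i) * E := by
  obtain ⟨M, hM⟩ := ex_bound H
  have hi : i ∈ Finset.range (M + i + 2) := by simp; omega
  refine ⟨∏ k ∈ (Finset.range (M + i + 2)).erase i,
    κ (H k + if k < i then 1 else 0).toNat (pr (-1) H k - H k), ?_, ?_, ?_, ?_⟩
  · intro h
    obtain ⟨k, h1, h2, h3, h4⟩ := last_neg H M hM i h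
    refine Finset.prod_eq_zero (i := k + 1) (by simp; omega) (κ_zero _ _ ?_)
    rw [if_neg (by omega), add_zero, Int.toNat_of_nonneg h4]
    simp only [pr]; omega
  · rw [Φ_eq (H + u i) (M + i) (M + i + 2) (by
      intro k hk
      rw [Finsupp.add_apply, hM k (by omega), u_apply, if_neg (by omega)]; rfl) (by omega),
      ← Finset.mul_prod_erase _ _ hi]
    congr 1
    · rw [pr_u]; simp [u_apply]
    · refine Finset.prod_congr rfl fun k hk => ?_
      have := Finset.ne_of_mem_erase hk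
      rw [pr_u]; simp [u_apply, this]
  · rw [Q_eq H M (i + 1) (M + i + 2) hM (by omega) (by omega), ← Finset.mul_prod_erase _ _ hi]
    congr 1
    · simp
    · refine Finset.prod_congr rfl fun k hk => ?_
      have := Finset.ne_of_mem_erase hk
      have e : (k < i + 1) = (k < i) := propext (by omega)
      simp only [e]
  · rw [Q_eq H M i (M + i + 2) hM (by omega) (by omega), ← Finset.mul_prod_erase _ _ hi]
    simp

theorem rec_eq (H : ℕ →₀ ℤ) (i : ℕ) : Φ (H + u i) = 2 * Q H i - Q H (i + 1) := by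
  obtain ⟨E, h0, h1, h2, h3⟩ := three H i
  rw [h1, h2, h3]
  rcases lt_or_ge (H i) 0 with h | h
  · rw [h0 h]; ring
  · rw [Int.toNat_add h (by norm_num)]
    simp only [Int.toNat_one, κ]
    ring

theorem Q_const (H : ℕ →₀ ℤ) : ∃ N, ∀ n, N ≤ n → Q H n = Q H N := by
  obtain ⟨M, hM⟩ := ex_bound H
  refine ⟨M + 1, fun n hn => ?_⟩
  induction n, hn using Nat.le_induction with
  | base => rfl
  | succ n hn ih =>
    obtain ⟨E, -, -, h2, h3⟩ := three H n
    rw [← ih, h2, h3, pr_zero _ H M hM n hn, hM n (by omega)]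
    rfl

theorem hasSum_Φ (H : ℕ →₀ ℤ) :
    HasSum (fun l : ℕ => (1 / 2 : ℂ) ^ l * (Φ (H + u l) : ℂ)) 0 := by
  obtain ⟨N, hN⟩ := Q_const H
  have hs : Summable (fun l : ℕ => (1 / 2 : ℂ) ^ l * (Φ (H + u l) : ℂ)) := by
    refine Summable.of_norm_bounded_eventually_nat
      (summable_geometric_two.mul_right ‖(Q H N : ℂ)‖) ?_
    filter_upwards [eventually_ge_atTop N] with n hn
    rw [rec_eq, hN n hn, hN (n + 1) (by omega), norm_mul, norm_pow]
    have : 2 * Q H N - Q H N = Q H N := by ring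
    rw [this]; simp
  rw [hs.hasSum_iff_tendsto_nat]
  have e : ∀ n, ∑ l ∈ Finset.range n, (1 / 2 : ℂ) ^ l * (Φ (H + u l) : ℂ)
      = -(2 * (1 / 2 : ℂ) ^ n * (Q H n : ℂ)) := by
    intro n
    induction n with
    | zero => simp [Q_zero]
    | succ n ih => rw [Finset.sum_range_succ, ih, rec_eq]; push_cast; ring
  simp only [e]
  have t : Tendsto (fun n : ℕ => -(2 * (1 / 2 : ℂ) ^ n * (Q H N : ℂ))) atTop
      (𝓝 (-(2 * 0 * (Q H N : ℂ)))) :=
    (((tendsto_pow_atTop_nhds_zero_of_norm_lt_one (by norm_num)).const_mul 2).mul_const _).neg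
  simp only [mul_zero, zero_mul, neg_zero] at t
  refine t.congr' ?_
  filter_upwards [eventually_ge_atTop N] with n hn
  rw [hN n hn]

end Pool.Agent.H.MP_97b573_an
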