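import Pool.Agent.H.MP_97b573_an.A

set_option autoImplicit false
open Filter Topology

namespace Pool.Agent.H.MP_97b573_an

def p (k : ℕ) : ℕ := Nat.fermatNumber (k + 1)

theorem p_ge (k : ℕ) : 5 ≤ p k := Nat.fermatNumber_mono (show 1 ≤ k + 1 by omega)

theorem p_succ (k : ℕ) : 2 * p k ≤ p (k + 1) := by
  have h := p_ge k
  unfold p at *
  rw [Nat.fermatNumber_succ (k + 1)]
  obtain ⟨x, hx⟩ : ∃ x, Nat.fermatNumber (k + 1) = x + 5 := ⟨_, (Nat.sub_add_cancel h).symm⟩
  rw [hx, show x + 5 - 1 = x + 4 by omega]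
  nlinarith

theorem p_cop {k l : ℕ} (h : k ≠ l) : Nat.Coprime (p k) (p l) :=
  Nat.coprime_fermatNumber_fermatNumber (by omega)

def t (k : ℕ) : ℚ := (p k : ℚ)⁻¹

theorem p_pos (k : ℕ) : (0 : ℚ) < p k := by have := p_ge k; positivity
theorem t_pos (k : ℕ) : 0 < t k := inv_pos.2 (p_pos k)
theorem t_mul (k : ℕ) : t k * p k = 1 := inv_mul_cancel₀ (p_pos k).ne'
theorem t_den (k : ℕ) : (t k).den = p k := Rat.inv_natCast_den_of_pos (by have := p_ge k; omega)

theorem t_inj : Function.Injective t := by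
  intro k l h
  by_contra hne
  have h1 : p k = p l := by rw [← t_den, h, t_den]
  have h2 := p_cop hne
  rw [h1, Nat.coprime_self] at h2
  have := p_ge l
  omega

def d (k : ℕ) : ℚ := t k - t (k + 1)

theorem d_ge (k : ℕ) : t k / 2 ≤ d k := by
  have h : (2 * p k : ℚ) ≤ p (k + 1) := by exact_mod_cast p_succ k
  have h1 : t (k + 1) ≤ (2 * p k : ℚ)⁻¹ := inv_anti₀ (by have := p_pos k; positivity) h
  rw [mul_inv] at h1
  unfold d
  change t (k + 1) ≤ 2⁻¹ * t k at h1
  linarith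

def PI (k : ℕ) (q : ℚ) : Prop := Nat.Coprime q.den (p k)

theorem PI.add {k : ℕ} {a b : ℚ} (ha : PI k a) (hb : PI k b) : PI k (a + b) :=
  Nat.Coprime.coprime_dvd_left (Rat.add_den_dvd a b) (Nat.Coprime.mul_left ha hb)

theorem PI.neg {k : ℕ} {a : ℚ} (ha : PI k a) : PI k (-a) := by
  unfold PI at *; rwa [Rat.neg_den]

theorem PI.sub {k : ℕ} {a b : ℚ} (ha : PI k a) (hb : PI k b) : PI k (a - b) := by
  rw [sub_eq_add_neg]; exact ha.add hb.neg

theorem PI.zero (k : ℕ) : PI k 0 := by simp [PI]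

theorem PI.t {k j : ℕ} (h : j ≠ k) (a : ℤ) : PI k (a * t j) := by
  refine Nat.Coprime.coprime_dvd_left (Rat.mul_den_dvd _ _) ?_
  rw [t_den]; simpa using p_cop h

theorem PI.g0 (k : ℕ) : PI k (1 / 8) := by
  have h : Nat.Coprime 2 (p k) := by
    rw [Nat.coprime_two_left]; exact Nat.odd_fermatNumber _
  have : (1 / 8 : ℚ).den = 2 ^ 3 := by norm_num
  unfold PI
  rw [this]
  exact Nat.Coprime.pow_left 3 h

theorem PI.eq_zero {k : ℕ} {a : ℤ} (h : PI k (a * Pool.Agent.H.MP_97b573_an.t k))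
    (ha : |a| < p k) : a = 0 := by
  set q : ℚ := a * Pool.Agent.H.MP_97b573_an.t k with hq
  have h1 : q.den ∣ p k := by
    have := Rat.mul_den_dvd (a : ℚ) (Pool.Agent.H.MP_97b573_an.t k)
    rw [t_den] at this; simpa using this
  have h2 : q.den = 1 := Nat.Coprime.eq_one_of_dvd h h1
  have h3 : (q.num : ℚ) = q := (Rat.den_eq_one_iff q).1 h2
  have h4 : (a : ℚ) = q.num * p k := by rw [h3, hq, mul_assoc, t_mul, mul_one]
  have h5 : a = q.num * p k := by exact_mod_cast h4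
  exact Int.eq_zero_of_abs_lt_dvd ⟨q.num, by rw [h5]; ring⟩ ha

noncomputable def V : (ℕ →₀ ℤ) →ₗ[ℤ] ℚ := Finsupp.linearCombination ℤ d

theorem V_single (j : ℕ) (a : ℤ) : V (Finsupp.single j a) = a * d j := by
  simp [V]

theorem V_u (l : ℕ) : V (u l) = t 0 - t l := by
  induction l with
  | zero => simp [u]
  | succ l ih =>
    have : u (l + 1) = u l + Finsupp.single l 1 := by simp [u, Finset.sum_range_succ]
    rw [this, map_add, ih, V_single, d]; simp

noncomputable def nn (H : ℕ →₀ ℤ) (k : ℕ) : ℤ := pr 0 H k - H k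

theorem nn_add (H G : ℕ →₀ ℤ) (k : ℕ) : nn (H + G) k = nn H k + nn G k := by
  cases k <;> simp only [nn, pr, Finsupp.add_apply] <;> ring

theorem nn_sub (H G : ℕ →₀ ℤ) (k : ℕ) : nn (H - G) k = nn H k - nn G k := by
  cases k <;> simp only [nn, pr, Finsupp.sub_apply] <;> ring

theorem nn_u (i l k : ℕ) : |nn (u l) k - nn (u i) k| ≤ 1 := by
  rw [abs_le]
  cases k <;> simp only [nn, pr, u_apply] <;> split_ifs <;> omega

theorem V_PI (k : ℕ) (H : ℕ →₀ ℤ) : PI k (V H + nn H k * t k) := by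
  induction H using Finsupp.induction_linear with
  | zero =>
    have : nn 0 k = 0 := by cases k <;> simp [nn, pr]
    simpa [this] using PI.zero k
  | add f g hf hg =>
    have := hf.add hg
    rw [map_add, nn_add]
    convert this using 1
    push_cast; ring
  | single j a =>
    rw [V_single, d]
    by_cases h1 : k = j
    · subst h1
      have : nn (Finsupp.single k a) k = -a := by
        cases k <;> simp [nn, pr]
      have h2 := PI.t (k := k) (j := k + 1) (by omega) (-a)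
      convert h2 using 1
      rw [this]; push_cast; ring
    by_cases h2 : k = j + 1
    · subst h2
      have : nn (Finsupp.single j a) (j + 1) = a := by simp [nn, pr]
      have h2 := PI.t (k := j + 1) (j := j) (by omega) a
      convert h2 using 1
      rw [this]; ring
    · have : nn (Finsupp.single j a) k = 0 := by
        cases k with
        | zero => simp [nn, pr, Ne.symm h1]
        | succ k =>
          have h3 : j ≠ k := by omega
          simp [nn, pr, Ne.symm h1, h3]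
      have h3 := (PI.t (k := k) (j := j) (Ne.symm h1) a).sub
        (PI.t (k := k) (j := j + 1) (Ne.symm h2) a)
      convert h3 using 1
      rw [this]; push_cast; ring

theorem V_inj (H G : ℕ →₀ ℤ) (h : V H = V G) (hb : ∀ k, |nn H k - nn G k| < p k) : H = G := by
  have h1 : ∀ k, nn (H - G) k = 0 := by
    intro k
    have := V_PI k (H - G)
    rw [map_sub, h, sub_self, zero_add] at this
    exact this.eq_zero (by rw [nn_sub]; exact hb k)
  have h2 : ∀ k, (H - G) k = 0 := by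
    intro k
    induction k with
    | zero => have := h1 0; simp only [nn, pr] at this; omega
    | succ k ih => have := h1 (k + 1); simp only [nn, pr] at this; omega
  exact sub_eq_zero.1 (Finsupp.ext h2)

theorem V_ge (H : ℕ →₀ ℤ) (h : ∀ k, 0 ≤ H k) : 0 ≤ V H ∧ ∀ k, H k * d k ≤ V H := by
  have h0 : ∀ k, (0 : ℚ) ≤ H k • d k := fun k => by
    have h1 : (0 : ℚ) ≤ H k := by exact_mod_cast h k
    have h2 := d_ge k
    have h3 := t_pos k
    rw [zsmul_eq_mul]; exact mul_nonneg h1 (by linarith)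
  have e : V H = ∑ k ∈ H.support, H k • d k := by
    simp only [V, Finsupp.linearCombination_apply, Finsupp.sum]
  have h1 : 0 ≤ V H := e ▸ Finset.sum_nonneg fun k _ => h0 k
  refine ⟨h1, fun k => ?_⟩
  by_cases hk : k ∈ H.support
  · rw [e, ← zsmul_eq_mul]
    exact Finset.single_le_sum (f := fun k => H k • d k) (fun k _ => h0 k) hk
  · rw [Finsupp.notMem_support_iff.1 hk]; simpa using h1

theorem H_le (H : ℕ →₀ ℤ) (h : Φ H ≠ 0) (hq : 0 ≤ 1 / 8 - V H) (k : ℕ) : 4 * H k ≤ p k := by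
  have h1 := (V_ge H (Φ_nonneg H h)).2 k
  have h2 : (0 : ℚ) ≤ H k := by exact_mod_cast Φ_nonneg H h k
  have h3 : (H k : ℚ) * (t k / 2) ≤ 1 / 8 :=
    (mul_le_mul_of_nonneg_left (d_ge k) h2).trans (by linarith)
  have h4 := mul_le_mul_of_nonneg_right h3 (p_pos k).le
  have h5 : (H k : ℚ) * (t k / 2) * p k = H k / 2 := by
    rw [mul_assoc, div_mul_eq_mul_div, t_mul]; ring
  have h6 : (4 * H k : ℚ) ≤ p k := by linarith
  exact_mod_cast h6

theorem nn_le (H : ℕ →₀ ℤ) (h : Φ H ≠ 0) (hq : 0 ≤ 1 / 8 - V H) (k : ℕ) :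
    -(p k : ℤ) ≤ 4 * nn H k ∧ 4 * nn H k ≤ p k := by
  have h1 := H_le H h hq k
  have h2 := Φ_nonneg H h k
  cases k with
  | zero => simp only [nn, pr]; omega
  | succ k =>
    have h3 := H_le H h hq k
    have h4 := Φ_nonneg H h k
    have h5 := p_succ k
    simp only [nn, pr]; omega

open Classical in
noncomputable def φ (q : ℚ) : ℤ :=
  if h : ∃ H, Φ H ≠ 0 ∧ 1 / 8 - V H = q then Φ h.choose else 0

theorem φ_eq (q : ℚ) (hq : 0 ≤ q) (G : ℕ →₀ ℤ) (hG : 1 / 8 - V G = q)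
    (hb : ∀ k, -(p k : ℤ) - 4 ≤ 4 * nn G k ∧ 4 * nn G k ≤ p k + 4) : φ q = Φ G := by
  unfold φ
  split_ifs with h
  · obtain ⟨h1, h2⟩ := h.choose_spec
    congr 1
    refine V_inj _ _ (by linarith) fun k => ?_
    have a1 := nn_le _ h1 (by rw [h2]; exact hq) k
    have a2 := hb k
    have a3 := p_ge k
    rw [abs_lt]; omega
  · by_contra hc
    exact h ⟨G, fun h0 => hc h0.symm, hG⟩

theorem φ_ne (q : ℚ) (h : φ q ≠ 0) : ∃ H, Φ H ≠ 0 ∧ 1 / 8 - V H = q ∧ φ q = Φ H := by
  unfold φ at h ⊢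
  split_ifs at h ⊢ with h1
  · exact ⟨_, h1.choose_spec.1, h1.choose_spec.2, rfl⟩
  · exact absurd rfl h

theorem φ_g0 : φ (1 / 8) = 1 := by
  rw [φ_eq _ (by norm_num) 0 (by simp), Φ_zero]
  intro k
  have : nn 0 k = 0 := by cases k <;> simp [nn, pr]
  rw [this]; omega

theorem hasSum_φ (τ : ℚ) (hτ : 0 ≤ τ) :
    HasSum (fun l : ℕ => (1 / 2 : ℂ) ^ l * (φ (t l + τ) : ℂ)) 0 := by
  by_cases h : ∀ l, φ (t l + τ) = 0
  · simp only [h, Int.cast_zero, mul_zero]; exact hasSum_zero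
  push Not at h
  obtain ⟨i, hi⟩ := h
  obtain ⟨H, h1, h2, -⟩ := φ_ne _ hi
  have h3 := hasSum_Φ (H - u i)
  have e : ∀ l, φ (t l + τ) = Φ (H - u i + u l) := by
    intro l
    refine φ_eq _ (by linarith [t_pos l]) _ ?_ fun k => ?_
    · rw [map_add, map_sub, V_u, V_u]; linarith
    · have a1 := nn_le H h1 (by linarith [t_pos i]) k
      have a2 := abs_le.1 (nn_u i l k)
      rw [nn_add, nn_sub]; omega
  simpa only [e] using h3

def good (k : ℕ) (q : ℚ) : Prop := ∃ j : ℤ, 0 ≤ j ∧ j * t k ≤ q ∧ PI k (q - j * t k)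

theorem good.add {k : ℕ} {a b : ℚ} (ha : good k a) (hb : good k b) : good k (a + b) := by
  obtain ⟨i, i0, i1, i2⟩ := ha
  obtain ⟨j, j0, j1, j2⟩ := hb
  refine ⟨i + j, by omega, by push_cast; linarith, ?_⟩
  convert i2.add j2 using 1
  push_cast; ring

theorem good_of_PI {k : ℕ} {q : ℚ} (hq : 0 ≤ q) (h : PI k q) : good k q :=
  ⟨0, le_rfl, by simpa using hq, by simpa using h⟩

theorem good.nsmul {k : ℕ} {a : ℚ} (ha : good k a) (n : ℕ) : good k (n * a) := by
  induction n with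
  | zero => simpa using good_of_PI le_rfl (PI.zero k)
  | succ n ih => convert ih.add ha using 1; push_cast; ring

theorem good_t (k i : ℕ) : good k (t i) := by
  by_cases h : i = k
  · subst h
    exact ⟨1, by norm_num, by simp, by simpa using PI.zero i⟩
  · exact good_of_PI (t_pos i).le (by simpa using PI.t h 1)

theorem bad_fin (q : ℚ) (hq : 0 ≤ q) : {k | ¬ good k q}.Finite := by
  refine Set.Finite.of_injOn (f := fun k => Nat.gcd q.den (p k)) (t := Set.Iic q.den)
    (fun k _ => Nat.gcd_le_left _ q.den_pos) ?_ (Set.finite_Iic _)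
  intro k hk l _ hkl
  by_contra hne
  apply hk
  refine good_of_PI hq ?_
  have h1 : Nat.gcd q.den (p k) ∣ p l := by
    have : Nat.gcd q.den (p k) = Nat.gcd q.den (p l) := hkl
    rw [this]; exact Nat.gcd_dvd_right _ _
  exact Nat.eq_one_of_dvd_coprimes (p_cop hne) (Nat.gcd_dvd_right _ _) h1

open Classical in
noncomputable def Bf (q : ℚ) : Finset ℕ :=
  if h : {k | ¬ good k q}.Finite then h.toFinset else ∅

theorem mem_Bf {q : ℚ} (hq : 0 ≤ q) (k : ℕ) : k ∈ Bf q ↔ ¬ good k q := by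
  simp [Bf, bad_fin q hq]

noncomputable def W (q : ℚ) : ℝ := ∏ k ∈ Bf q, (3 : ℝ) ^ p k

theorem w1 (k : ℕ) : (1 : ℝ) ≤ 3 ^ p k := one_le_pow₀ (by norm_num)

theorem pr_mono {s s' : Finset ℕ} (h : s ⊆ s') :
    ∏ k ∈ s, (3 : ℝ) ^ p k ≤ ∏ k ∈ s', (3 : ℝ) ^ p k :=
  Finset.prod_le_prod_of_subset_of_one_le h (fun _ _ => by positivity) fun k _ _ => w1 k

theorem pr_one (s : Finset ℕ) : 1 ≤ ∏ k ∈ s, (3 : ℝ) ^ p k := by
  simpa using pr_mono (Finset.empty_subset s)

theorem W_one (q : ℚ) : 1 ≤ W q := pr_one _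

theorem W_add {a b : ℚ} (ha : 0 ≤ a) (hb : 0 ≤ b) : W (a + b) ≤ W a * W b := by
  have h : Bf (a + b) ⊆ Bf a ∪ Bf b := by
    intro k hk
    rw [Finset.mem_union, mem_Bf ha, mem_Bf hb]
    rw [mem_Bf (add_nonneg ha hb)] at hk
    by_contra hc
    push Not at hc
    exact hk (hc.1.add hc.2)
  refine (pr_mono h).trans ?_
  unfold W
  rw [← Finset.prod_union_inter]
  exact le_mul_of_one_le_right ((zero_le_one).trans (pr_one _)) (pr_one _)

theorem W_nsmul {a : ℚ} (ha : 0 ≤ a) (n : ℕ) : W (n * a) ≤ W a := by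
  refine pr_mono fun k hk => ?_
  rw [mem_Bf ha]
  rw [mem_Bf (by positivity)] at hk
  exact fun h => hk (h.nsmul n)

theorem W_t (i : ℕ) : W (t i) = 1 := by
  have : Bf (t i) = ∅ := by
    ext k; simp [mem_Bf (t_pos i).le, good_t]
  simp [W, this]

theorem φ_le (q : ℚ) (hq : 0 ≤ q) (h : φ q ≠ 0) : q ≤ 1 / 8 ∧ |(φ q : ℝ)| ≤ W q := by
  classical
  obtain ⟨H, h1, h2, h3⟩ := φ_ne q h
  have hV := (V_ge H (Φ_nonneg H h1)).1
  have hq8 : q ≤ 1 / 8 := by linarith
  refine ⟨hq8, ?_⟩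
  obtain ⟨M, hM⟩ := ex_bound H
  rw [h3, Φ_eq H M (M + 1) hM le_rfl]
  push_cast
  rw [Finset.abs_prod]
  calc _ ≤ ∏ k ∈ Finset.range (M + 1), if k ∈ Bf q then (3 : ℝ) ^ p k else 1 := by
        refine Finset.prod_le_prod (fun _ _ => abs_nonneg _) fun k _ => ?_
        split_ifs with hk
        · have a1 : |((κ (H k).toNat (pr 0 H k - H k) : ℤ) : ℝ)| ≤ 3 ^ (H k).toNat := by
            exact_mod_cast κ_le _ _
          refine a1.trans (pow_le_pow_right₀ (by norm_num) ?_)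
          have := H_le H h1 (h2 ▸ hq) k
          omega
        · rw [mem_Bf hq, not_not] at hk
          obtain ⟨j, j0, j1, j2⟩ := hk
          have a1 : PI k (q - nn H k * t k) := by
            convert (PI.g0 k).sub (V_PI k H) using 1
            rw [← h2]; ring
          have a2 : PI k (((j - nn H k : ℤ) : ℚ) * t k) := by
            convert a1.sub j2 using 1
            push_cast; ring
          have a3 : (8 * j : ℚ) ≤ p k := by
            have := mul_le_mul_of_nonneg_right (j1.trans hq8) (p_pos k).le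
            rw [mul_assoc, t_mul] at this
            linarith
          have a4 : 8 * j ≤ p k := by exact_mod_cast a3
          have a5 := nn_le H h1 (h2 ▸ hq) k
          have a6 := p_ge k
          have a7 := a2.eq_zero (by rw [abs_lt]; omega)
          rw [κ_one _ _ (by unfold nn at a7; omega)]
          simp
    _ ≤ W q := by
        rw [Finset.prod_ite_mem]
        exact pr_mono Finset.inter_subset_right

noncomputable def ω (q : ℚ) : ℝ := Real.exp (-(q : ℝ) ^ 2) * W q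

theorem ω_pos (q : ℚ) : 0 < ω q := mul_pos (Real.exp_pos _) (by linarith [W_one q])

theorem ω_add {a b : ℚ} (ha : 0 ≤ a) (hb : 0 ≤ b) : ω (a + b) ≤ ω a * ω b := by
  unfold ω
  have h1 : Real.exp (-((a + b : ℚ) : ℝ) ^ 2) ≤ Real.exp (-(a : ℝ) ^ 2) * Real.exp (-(b : ℝ) ^ 2) := by
    rw [← Real.exp_add, Real.exp_le_exp]
    have ha' : (0 : ℝ) ≤ a := by exact_mod_cast ha
    have hb' : (0 : ℝ) ≤ b := by exact_mod_cast hb
    push_cast; nlinarith [mul_nonneg ha' hb']
  refine (mul_le_mul h1 (W_add ha hb) (by linarith [W_one (a + b)]) (by positivity)).trans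
    (le_of_eq (by ring))

theorem ω_t (i : ℕ) : ω (t i) ≤ 1 := by
  rw [ω, W_t, mul_one, Real.exp_le_one_iff]
  nlinarith [sq_nonneg (t i : ℝ)]

theorem φ_le_ω (q : ℚ) (hq : 0 ≤ q) : ‖(φ q : ℂ)‖ ≤ 2 * ω q := by
  by_cases h : φ q = 0
  · rw [h]; simpa using (ω_pos q).le
  obtain ⟨h1, h2⟩ := φ_le q hq h
  rw [Complex.norm_intCast]
  have a1 : (q : ℝ) ≤ 1 / 8 := by
    have := (Rat.cast_le (K := ℝ)).2 h1
    simpa using this
  have a2 : (0 : ℝ) ≤ q := by exact_mod_cast hq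
  have a3 := Real.add_one_le_exp (-(q : ℝ) ^ 2)
  have a4 : 1 / 2 ≤ Real.exp (-(q : ℝ) ^ 2) := by nlinarith
  unfold ω
  nlinarith [W_one q]

theorem ω_rad (s : ℚ) (hs : 0 < s) :
    Tendsto (fun n : ℕ => ω ((n : ℚ) * s) ^ ((1 : ℝ) / (n : ℝ))) atTop (𝓝 0) := by
  have hs' : (0 : ℝ) < s := by exact_mod_cast hs
  have h0 : Tendsto (fun n : ℕ => Real.exp (-(s : ℝ) ^ 2) ^ n * W s) atTop (𝓝 (0 * W s)) :=
    (tendsto_pow_atTop_nhds_zero_of_lt_one (Real.exp_pos _).le
      (Real.exp_lt_one_iff.2 (by nlinarith))).mul_const _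
  rw [zero_mul] at h0
  refine squeeze_zero' (Eventually.of_forall fun n => Real.rpow_nonneg (ω_pos _).le _) ?_ h0
  filter_upwards [eventually_ge_atTop 1] with n hn
  have hn' : (1 : ℝ) ≤ n := by exact_mod_cast hn
  have hW := W_one ((n : ℚ) * s)
  unfold ω
  rw [Real.mul_rpow (Real.exp_pos _).le (by linarith), ← Real.exp_mul, ← Real.exp_nat_mul]
  have e : -(((n : ℚ) * s : ℚ) : ℝ) ^ 2 * (1 / (n : ℝ)) = n * -(s : ℝ) ^ 2 := by
    push_cast; field_simp
  rw [e]
  refine mul_le_mul_of_nonneg_left ?_ (Real.exp_pos _).le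
  refine (Real.rpow_le_self_of_one_le hW ?_).trans (W_nsmul hs.le n)
  exact (div_le_one (by linarith)).2 hn'

end Pool.Agent.H.MP_97b573_an
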